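import Pool.Agent.Q141.CP.Stm

set_option autoImplicit false

namespace Pool.Agent.Q141.CP

open Finset MeasureTheory Filter Topology
open Pool.Agent.Q285.LogFact (G)

private lemma dens (t : ℝ) (ht : 0 ≤ t) : 0 ≤ 1 - Real.exp (-t) ∧ 1 - Real.exp (-t) ≤ 1 := by
  have h1 := Real.exp_pos (-t)
  have h2 : Real.exp (-t) ≤ 1 := Real.exp_le_one_iff.mpr (by linarith)
  constructor <;> linarith

private lemma stepv_ne {D : ℕ} (a : Dir D) : stepv a ≠ 0 := by
  intro h
  have := congrFun h a.1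
  simp only [stepv, Pi.single_eq_same, Pi.zero_apply] at this
  split_ifs at this <;> omega

theorem t_KK : S_KK := by
  intro hPERC hKV hSPR hCHO hLNK hAN1 hAN2 hAN3 hDEX
  obtain ⟨M, hM, hL1, hL2, hL3⟩ := hDEX hAN2
  have hL0 : 0 < Lam M := by linarith
  refine ⟨M ^ 4, Lam M, ?_, hL1, ?_, ?_⟩
  · calc 2 ≤ 3 ^ 4 := by norm_num
      _ ≤ M ^ 4 := Nat.pow_le_pow_left hM 4
  · push_cast
    exact hL2
  · intro k 𝒱 h𝒱
    rcases Nat.lt_or_ge k 2 with hk | hk
    · have hsub : 𝒱 ⊆ {{0}} := by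
        intro V hV
        obtain ⟨h0, hc, -⟩ := h𝒱 V hV
        have hk1 : k = 1 := by
          have : 0 < V.card := Finset.card_pos.mpr ⟨0, h0⟩
          omega
        rw [hk1, Finset.card_eq_one] at hc
        obtain ⟨a, ha⟩ := hc
        rw [ha, Finset.mem_singleton] at h0
        rw [Finset.mem_singleton, ha, h0]
      have hterm : ∀ V : Finset (Vtx (M ^ 4)), 0 ≤ ∏ x ∈ V, (A (nb V x) / Lam M) := by
        intro V
        refine Finset.prod_nonneg fun x _ => div_nonneg ?_ hL0.le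
        unfold A
        positivity
      refine (Finset.sum_le_sum_of_subset_of_nonneg hsub fun V _ _ => hterm V).trans ?_
      rw [Finset.sum_singleton, Finset.prod_singleton]
      have hnb : nb ({0} : Finset (Vtx (M ^ 4))) 0 = 0 := by
        unfold nb
        rw [Finset.card_eq_zero, Finset.filter_eq_empty_iff]
        intro a _ h
        rw [zero_add, Finset.mem_singleton] at h
        exact stepv_ne a h
      rw [hnb, div_le_one hL0]
      refine le_trans ?_ hL1
      have hG : G (25 * 0) = 0 := by simp [Pool.Agent.Q285.LogFact.G]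
      unfold A
      rw [hG, mul_zero, Real.exp_zero]
      rw [div_le_one (by positivity)]
      exact_mod_cast Nat.one_le_iff_ne_zero.mpr (Nat.factorial_ne_zero 25)
    · have hall : ∀ V ∈ 𝒱, ∃ E₀ : Finset (Vtx (M ^ 4) × Fin (M ^ 4)), ∀ E, E₀ ⊆ E →
          ∏ x ∈ V, (A (nb V x) / Lam M) ≤
            ((1 - pp (M ^ 4)) * (1 - qq (M ^ 4))) ^ (bdE enZ E V).card *
              conn2 enZ E V (pp (M ^ 4)) (qq (M ^ 4)) := by
        intro V hV
        obtain ⟨-, hc, hcon⟩ := h𝒱 V hV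
        exact hKV hSPR hCHO hLNK hAN1 hAN3 M hM hL0 hL3 V hcon (by omega)
      choose! E₀ hE₀ using hall
      have hb : ∀ V ∈ 𝒱, ∏ x ∈ V, (A (nb V x) / Lam M) ≤
            ((1 - pp (M ^ 4)) * (1 - qq (M ^ 4))) ^ (bdE enZ (𝒱.biUnion E₀) V).card *
              conn2 enZ (𝒱.biUnion E₀) V (pp (M ^ 4)) (qq (M ^ 4)) := by
        intro V hV
        exact hE₀ V hV _ (Finset.subset_biUnion_of_mem E₀ hV)
      refine (Finset.sum_le_sum hb).trans ?_
      have hp := dens (24 / (2 * ((M ^ 4 : ℕ) : ℝ))) (by positivity)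
      have hq := dens (1 / (2 * ((M ^ 4 : ℕ) : ℝ))) (by positivity)
      exact hPERC _ _ enZ (𝒱.biUnion E₀) 0 (pp (M ^ 4)) (qq (M ^ 4)) 𝒱 hp.1 hp.2 hq.1 hq.2
        (fun V hV => (h𝒱 V hV).1)

end Pool.Agent.Q141.CP
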