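import Pool.Agent.Q141.CP.Stm

set_option autoImplicit false

namespace Pool.Agent.Q141.CP

open Finset MeasureTheory Filter Topology
open Pool.Agent.Q285.LogFact (G)

namespace KVaux

lemma nb_le {D : ℕ} (V : Finset (Vtx D)) (x : Vtx D) : nb V x ≤ 2 * D := by
  unfold nb
  refine (Finset.card_filter_le _ _).trans ?_
  rw [Finset.card_univ]
  simp [mul_comm]

lemma nb_pos {D : ℕ} (V : Finset (Vtx D)) (hV : ConnZ V) (h2 : 2 ≤ V.card) (x : Vtx D)
    (hx : x ∈ V) : 1 ≤ nb V x := by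
  obtain ⟨y, hy, hne⟩ : ∃ y ∈ V, y ≠ x := Finset.exists_mem_ne (by omega) x
  have h := hV x hx y hy
  rcases Relation.ReflTransGen.cases_head h with h | ⟨z, ⟨_, hz, d, hd⟩, _⟩
  · exact absurd h.symm hne
  · unfold nb
    rw [Nat.one_le_iff_ne_zero, ← Nat.pos_iff_ne_zero, Finset.card_pos]
    exact ⟨d, by rw [Finset.mem_filter]; exact ⟨Finset.mem_univ _, hd ▸ hz⟩⟩

/-- The constant `κ`. -/
noncomputable def kap : ℝ := (25 : ℝ) ^ 25 * Real.exp (-25) / ((25).factorial : ℝ)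

lemma kap_pos : 0 < kap := by unfold kap; positivity

/-- `ρ_j`. -/
noncomputable def rj (j : ℕ) : ℝ := Real.exp ((Real.log (25 * j) / 2 + 1) / j)

lemma A_le (h3 : S_AN3) (j : ℕ) (hj : 1 ≤ j) : A j ≤ kap * (j : ℝ) ^ 25 * rj j := by
  have hj' : (0 : ℝ) < j := by exact_mod_cast hj
  have h := h3.1 (25 * j) (by omega)
  push_cast at h
  have h2 : 25 * G (25 * j) ≤ 25 * Real.log (25 * j) + (-25) +
      (Real.log (25 * j) / 2 + 1) / j := by
    have e : 25 * ((Real.log (25 * j) / 2 + 1) / (25 * j)) = (Real.log (25 * j) / 2 + 1) / j := by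
      field_simp
    nlinarith [h, e]
  have h4 := Real.exp_le_exp.mpr h2
  rw [Real.exp_add, Real.exp_add] at h4
  have e1 : Real.exp (25 * Real.log (25 * j)) = (25 : ℝ) ^ 25 * (j : ℝ) ^ 25 := by
    rw [show (25 : ℝ) * Real.log (25 * j) = ((25 : ℕ) : ℝ) * Real.log (25 * j) by norm_num,
      ← Real.log_pow, Real.exp_log (by positivity), mul_pow]
  rw [e1] at h4
  unfold A kap rj
  calc Real.exp (25 * G (25 * j)) / ((25).factorial : ℝ)
      ≤ ((25 : ℝ) ^ 25 * (j : ℝ) ^ 25 * Real.exp (-25) *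
          Real.exp ((Real.log (25 * j) / 2 + 1) / j)) / ((25).factorial : ℝ) := by
        gcongr
    _ = _ := by ring

lemma rj_le_one (j : ℕ) (hj : 1 ≤ j) : rj j ≤ Real.exp (Real.log 25 / 2 + 1) := by
  have hj' : (1 : ℝ) ≤ j := by exact_mod_cast hj
  unfold rj
  apply Real.exp_le_exp.mpr
  rw [div_le_iff₀ (by linarith), Real.log_mul (by norm_num) (by linarith)]
  have h1 := Real.log_le_sub_one_of_pos (show (0 : ℝ) < j by linarith)
  have h2 : 0 ≤ Real.log 25 := Real.log_nonneg (by norm_num)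
  nlinarith

lemma rj_le (M j : ℕ) (hM : 1 ≤ M) (h1 : 2 * M ^ 3 ≤ j) (h2 : j ≤ 2 * M ^ 4) :
    rj j ≤ rho M := by
  have hM' : (1 : ℝ) ≤ M := by exact_mod_cast hM
  have h1' : 2 * (M : ℝ) ^ 3 ≤ j := by exact_mod_cast h1
  have h2' : (j : ℝ) ≤ 2 * (M : ℝ) ^ 4 := by exact_mod_cast h2
  have hM3 : (1 : ℝ) ≤ (M : ℝ) ^ 3 := one_le_pow₀ hM'
  unfold rj rho
  apply Real.exp_le_exp.mpr
  have hl : Real.log (25 * j) ≤ Real.log (50 * (M : ℝ) ^ 4) :=
    Real.log_le_log (by nlinarith) (by linarith)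
  have hl0 : 0 ≤ Real.log (25 * j) := Real.log_nonneg (by nlinarith)
  apply div_le_div₀ _ _ (by positivity) h1'
  · linarith
  · linarith

lemma s_le_one (θ : ℝ) : θ * Real.exp (1 - θ) ≤ 1 := by
  have h := Real.add_one_le_exp (θ - 1)
  have h2 : Real.exp (θ - 1) * Real.exp (1 - θ) = 1 := by
    rw [← Real.exp_add]; simp
  have h3 := Real.exp_pos (1 - θ)
  nlinarith

lemma rho_ge_one (M : ℕ) (hM : 1 ≤ M) : 1 ≤ rho M := by
  have hM' : (1 : ℝ) ≤ M := by exact_mod_cast hM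
  unfold rho
  apply Real.one_le_exp
  have : 0 ≤ Real.log (50 * (M : ℝ) ^ 4) :=
    Real.log_nonneg (by nlinarith [one_le_pow₀ (n := 4) hM'])
  positivity

lemma dens' (t : ℝ) (ht : 0 ≤ t) : 0 ≤ 1 - Real.exp (-t) ∧ 1 - Real.exp (-t) ≤ 1 := by
  have h1 := Real.exp_pos (-t)
  have h2 : Real.exp (-t) ≤ 1 := Real.exp_le_one_iff.mpr (by linarith)
  constructor <;> linarith

lemma half_le (t : ℝ) (h0 : 0 ≤ t) (h1 : t ≤ 1) : t / 2 ≤ 1 - Real.exp (-t) := by
  have h := Real.add_one_le_exp t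
  have h2 : Real.exp (-t) * Real.exp t = 1 := by
    rw [← Real.exp_add]; simp
  have h3 := Real.exp_pos (-t)
  have h4 : Real.exp (-t) * (t + 1) ≤ 1 := by nlinarith
  by_contra hcon
  push Not at hcon
  have h5 : 1 - t / 2 < Real.exp (-t) := by linarith
  nlinarith

/-- The factor at `x`. -/
noncomputable def fx (M r : ℕ) : ℝ :=
  if r = 0 then qq (M ^ 4) else 1 - (1 - pp (M ^ 4)) ^ r

lemma one_sub_pp (D r : ℕ) : (1 - pp D) ^ r = Real.exp (-(24 * r / (2 * D))) := by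
  unfold pp
  rw [sub_sub_cancel, ← Real.exp_nat_mul]
  congr 1
  ring

lemma qq_ge (M : ℕ) (hM : 1 ≤ M) : 1 / (4 * (M : ℝ) ^ 4) ≤ qq (M ^ 4) := by
  have hM' : (1 : ℝ) ≤ M := by exact_mod_cast hM
  have hM4 : (1 : ℝ) ≤ (M : ℝ) ^ 4 := one_le_pow₀ hM'
  have h := half_le (1 / (2 * ((M ^ 4 : ℕ) : ℝ))) (by positivity)
    (by rw [div_le_one (by positivity)]; push_cast; linarith)
  unfold qq
  refine le_trans (le_of_eq ?_) h
  push_cast
  field_simp
  norm_num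

lemma fx_ge (M r : ℕ) (hM : 1 ≤ M) : 1 / (4 * (M : ℝ) ^ 4) ≤ fx M r := by
  unfold fx
  split_ifs with hr
  · exact qq_ge M hM
  · refine (qq_ge M hM).trans ?_
    rw [one_sub_pp]
    unfold qq
    have hr' : (1 : ℝ) ≤ r := by exact_mod_cast Nat.one_le_iff_ne_zero.mpr hr
    have : Real.exp (-(24 * r / (2 * ((M ^ 4 : ℕ) : ℝ)))) ≤
        Real.exp (-(1 / (2 * ((M ^ 4 : ℕ) : ℝ)))) := by
      apply Real.exp_le_exp.mpr
      apply neg_le_neg
      have : (0 : ℝ) < 2 * ((M ^ 4 : ℕ) : ℝ) := by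
        have : (0 : ℝ) < ((M ^ 4 : ℕ) : ℝ) := by exact_mod_cast Nat.pow_pos (n := 4) hM
        linarith
      gcongr
      linarith
    linarith

lemma point (h1 : S_AN1) (M : ℕ) (hM : 3 ≤ M)
    (hsm : (Real.exp 1 / M) ^ 25 * Real.exp (Real.log 25 / 2 + 1) * (4 * (M : ℝ) ^ 4) ≤ 1)
    (j r : ℕ) (hj1 : 1 ≤ j) (hj2 : j ≤ 2 * M ^ 4) (θ : ℝ) (hθ : θ = j / (2 * (M : ℝ) ^ 4)) :
    (θ * Real.exp (1 - θ)) ^ 25 * rj j ≤ 1005 / 1000 * rho M *
      (if 1 / (M : ℝ) * (2 * ((M ^ 4 : ℕ) : ℝ)) ≤ j ∧ 4 * r < j then 4 * (M : ℝ) ^ 4 else 1) *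
        fx M r := by
  have hM' : (3 : ℝ) ≤ M := by exact_mod_cast hM
  have hM0 : (0 : ℝ) < M := by linarith
  have hM4 : (0 : ℝ) < (M : ℝ) ^ 4 := by positivity
  have hj1' : (1 : ℝ) ≤ j := by exact_mod_cast hj1
  have hj2' : (j : ℝ) ≤ 2 * (M : ℝ) ^ 4 := by exact_mod_cast hj2
  have hθ0 : 0 < θ := by rw [hθ]; positivity
  have hθ1 : θ ≤ 1 := by rw [hθ, div_le_one (by positivity)]; exact hj2'
  have hrho := rho_ge_one M (by omega)
  have hfx := fx_ge M r (by omega)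
  have hs0 : 0 ≤ θ * Real.exp (1 - θ) := by positivity
  have hrj0 : 0 < rj j := by unfold rj; positivity
  have hcut : 1 / (M : ℝ) * (2 * ((M ^ 4 : ℕ) : ℝ)) = 2 * (M : ℝ) ^ 3 := by
    push_cast
    field_simp
  rw [hcut]
  by_cases hA : 2 * (M : ℝ) ^ 3 ≤ j
  · have hAn : 2 * M ^ 3 ≤ j := by exact_mod_cast hA
    have hr := rj_le M j (by omega) hAn hj2
    by_cases hB : 4 * r < j
    · rw [if_pos ⟨hA, hB⟩]
      have hs1 : (θ * Real.exp (1 - θ)) ^ 25 ≤ 1 := pow_le_one₀ hs0 (s_le_one θ)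
      calc (θ * Real.exp (1 - θ)) ^ 25 * rj j ≤ 1 * rho M := by gcongr
        _ ≤ 1005 / 1000 * rho M := by linarith
        _ = 1005 / 1000 * rho M * (4 * (M : ℝ) ^ 4) * (1 / (4 * (M : ℝ) ^ 4)) := by
            field_simp
        _ ≤ _ := by gcongr
    · rw [if_neg (fun h => hB h.2), mul_one]
      have hr0 : r ≠ 0 := by omega
      have hf : 1 - Real.exp (-(6 * θ)) ≤ fx M r := by
        unfold fx
        rw [if_neg hr0, one_sub_pp]
        have hB' : (j : ℝ) ≤ 4 * r := by exact_mod_cast not_lt.mp hB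
        have : Real.exp (-(24 * r / (2 * ((M ^ 4 : ℕ) : ℝ)))) ≤ Real.exp (-(6 * θ)) := by
          apply Real.exp_le_exp.mpr
          apply neg_le_neg
          rw [hθ]
          push_cast
          rw [show (6 : ℝ) * (j / (2 * (M : ℝ) ^ 4)) = (6 * j) / (2 * (M : ℝ) ^ 4) by ring]
          exact div_le_div_of_nonneg_right (by linarith) (by positivity)
        linarith
      have hs := h1 θ hθ0 hθ1
      have hf0 : 0 ≤ 1 - Real.exp (-(6 * θ)) := by
        have := Real.exp_le_one_iff.mpr (show -(6 * θ) ≤ 0 by linarith)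
        linarith
      calc (θ * Real.exp (1 - θ)) ^ 25 * rj j
          ≤ (1005 / 1000 * (1 - Real.exp (-(6 * θ)))) * rho M := by gcongr
        _ = 1005 / 1000 * rho M * (1 - Real.exp (-(6 * θ))) := by ring
        _ ≤ _ := by gcongr
  · rw [if_neg (fun h => hA h.1), mul_one]
    push Not at hA
    have hθM : θ ≤ 1 / M := by
      rw [hθ, div_le_div_iff₀ (by positivity) hM0]
      nlinarith
    have hs1 : θ * Real.exp (1 - θ) ≤ Real.exp 1 / M := by
      calc θ * Real.exp (1 - θ) ≤ 1 / M * Real.exp 1 := by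
            have : Real.exp (1 - θ) ≤ Real.exp 1 := Real.exp_le_exp.mpr (by linarith)
            gcongr
        _ = _ := by ring
    have hk : (θ * Real.exp (1 - θ)) ^ 25 * rj j ≤ 1 / (4 * (M : ℝ) ^ 4) := by
      rw [le_div_iff₀ (by positivity)]
      refine le_trans ?_ hsm
      have := rj_le_one j hj1
      gcongr
    have h2 : (1 : ℝ) ≤ 1005 / 1000 * rho M := by linarith
    have h3 : 0 ≤ fx M r := le_trans (by positivity) hfx
    nlinarith

end KVaux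

open KVaux

theorem t_KV : S_KV := by
  intro hSPR hCHO hLNK hAN1 hAN3 M hM hLam hsm V hV h2
  classical
  have hM' : (3 : ℝ) ≤ M := by exact_mod_cast hM
  have hM0 : (0 : ℝ) < M := by linarith
  have hM4 : (0 : ℝ) < (M : ℝ) ^ 4 := by positivity
  have hD1 : 1 ≤ M ^ 4 := Nat.one_le_pow _ _ (by omega)
  obtain ⟨E₀, hE₀⟩ := hLNK (M ^ 4) V
  obtain ⟨c, hc⟩ := hCHO (M ^ 4) V (1 / M) hD1 (by positivity)
  refine ⟨E₀, fun E hE => ?_⟩
  obtain ⟨hB, hlow, hht, hcon⟩ := hE₀ E hE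
  have hp := dens' (24 / (2 * ((M ^ 4 : ℕ) : ℝ))) (by positivity)
  have hq := dens' (1 / (2 * ((M ^ 4 : ℕ) : ℝ))) (by positivity)
  have hspr := hSPR _ _ enZ E V (ht c) (pp (M ^ 4)) (qq (M ^ 4)) hp.1 hp.2 hq.1 hq.2
    (hht c) (hcon hV)
  -- the product form of the left side of `hspr`
  have hprod : qq (M ^ 4) ^ (V.filter fun x => lowE enZ E V (ht c) x = ∅).card *
      ∏ x ∈ V.filter (fun x => lowE enZ E V (ht c) x ≠ ∅),
        (1 - (1 - pp (M ^ 4)) ^ (lowE enZ E V (ht c) x).card) = ∏ x ∈ V, fx M (rc V c x) := by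
    rw [← Finset.prod_const, ← Finset.prod_filter_mul_prod_filter_not V
      (fun x => lowE enZ E V (ht c) x = ∅) (fun x => fx M (rc V c x))]
    congr 1
    · refine Finset.prod_congr rfl fun x hx => ?_
      rw [Finset.mem_filter] at hx
      have : rc V c x = 0 := by rw [← hlow c x hx.1, hx.2, Finset.card_empty]
      rw [fx, if_pos this]
    · refine Finset.prod_congr rfl fun x hx => ?_
      rw [Finset.mem_filter] at hx
      have : rc V c x ≠ 0 := by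
        rw [← hlow c x hx.1]
        exact fun h => hx.2 (Finset.card_eq_zero.mp h)
      rw [fx, if_neg this, hlow c x hx.1]
  rw [hprod] at hspr
  have hP : ((1 - pp (M ^ 4)) * (1 - qq (M ^ 4))) ^ (bdE enZ E V).card =
      ∏ x ∈ V, Real.exp (-(25 * (1 - (nb V x : ℝ) / (2 * (M : ℝ) ^ 4)))) := by
    rw [← Real.exp_sum]
    unfold pp qq
    rw [sub_sub_cancel, sub_sub_cancel, ← Real.exp_add, ← Real.exp_nat_mul]
    congr 1
    have hB' : ((bdE enZ E V).card : ℝ) + ∑ x ∈ V, (nb V x : ℝ) = 2 * (M : ℝ) ^ 4 * V.card := by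
      exact_mod_cast hB
    have e1 : ∑ x ∈ V, -(25 * (1 - (nb V x : ℝ) / (2 * (M : ℝ) ^ 4))) =
        -25 * V.card + 25 / (2 * (M : ℝ) ^ 4) * ∑ x ∈ V, (nb V x : ℝ) := by
      have : ∀ x ∈ V, -(25 * (1 - (nb V x : ℝ) / (2 * (M : ℝ) ^ 4))) =
          -25 + 25 / (2 * (M : ℝ) ^ 4) * (nb V x : ℝ) := fun x _ => by ring
      rw [Finset.sum_congr rfl this, Finset.sum_add_distrib, Finset.sum_const, nsmul_eq_mul,
        Finset.mul_sum]
      ring
    rw [e1]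
    have e2 : ∑ x ∈ V, (nb V x : ℝ) = 2 * (M : ℝ) ^ 4 * V.card - ((bdE enZ E V).card : ℝ) := by
      linarith
    rw [e2]
    push_cast
    field_simp
    ring
  refine le_trans ?_ (mul_le_mul_of_nonneg_left hspr (by rw [hP]; positivity))
  rw [hP, ← Finset.prod_mul_distrib]
  -- the pointwise bound
  set T : Vtx (M ^ 4) → ℝ := fun x => 1005 / 1000 * rho M *
    (if 1 / (M : ℝ) * (2 * ((M ^ 4 : ℕ) : ℝ)) ≤ nb V x ∧ 4 * rc V c x < nb V x
      then 4 * (M : ℝ) ^ 4 else 1) with hT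
  have hrho := rho_ge_one M (by omega)
  have hT0 : ∀ x, 0 ≤ T x := by
    intro x
    simp only [hT]
    split_ifs <;> positivity
  have hpt : ∀ x ∈ V, A (nb V x) ≤ (kap * (2 * (M : ℝ) ^ 4) ^ 25 * T x) *
      (Real.exp (-(25 * (1 - (nb V x : ℝ) / (2 * (M : ℝ) ^ 4)))) * fx M (rc V c x)) := by
    intro x hx
    have hj1 := nb_pos V hV h2 x hx
    have hj2 := nb_le V x
    have hA := A_le hAN3 (nb V x) hj1
    have hp := point hAN1 M hM hsm (nb V x) (rc V c x) hj1 hj2 _ rfl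
    set θ : ℝ := (nb V x : ℝ) / (2 * (M : ℝ) ^ 4) with hθ
    have hj : (nb V x : ℝ) ^ 25 = (2 * (M : ℝ) ^ 4) ^ 25 * (Real.exp (-(25 * (1 - θ))) *
        (θ * Real.exp (1 - θ)) ^ 25) := by
      have e1 : Real.exp (-(25 * (1 - θ))) * Real.exp (1 - θ) ^ 25 = 1 := by
        rw [← Real.exp_nat_mul, ← Real.exp_add]
        simp
      have e2 : (nb V x : ℝ) = (2 * (M : ℝ) ^ 4) * θ := by
        rw [hθ]; field_simp
      rw [mul_pow θ, e2, mul_pow]
      calc (2 * (M : ℝ) ^ 4) ^ 25 * θ ^ 25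
          = (2 * (M : ℝ) ^ 4) ^ 25 * θ ^ 25 *
            (Real.exp (-(25 * (1 - θ))) * Real.exp (1 - θ) ^ 25) := by rw [e1, mul_one]
        _ = _ := by ring
    calc A (nb V x) ≤ kap * (nb V x : ℝ) ^ 25 * rj (nb V x) := hA
      _ = kap * (2 * (M : ℝ) ^ 4) ^ 25 * Real.exp (-(25 * (1 - θ))) *
          ((θ * Real.exp (1 - θ)) ^ 25 * rj (nb V x)) := by rw [hj]; ring
      _ ≤ kap * (2 * (M : ℝ) ^ 4) ^ 25 * Real.exp (-(25 * (1 - θ))) *
          (T x * fx M (rc V c x)) := by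
          have := kap_pos
          gcongr
      _ = _ := by ring
  have hA0 : ∀ j, 0 ≤ A j := fun j => by unfold A; positivity
  have hfx0 : ∀ r, 0 ≤ fx M r := fun r => le_trans (by positivity) (fx_ge M r (by omega))
  have h3 : ∏ x ∈ V, A (nb V x) ≤ (∏ x ∈ V, (kap * (2 * (M : ℝ) ^ 4) ^ 25 * T x)) *
      ∏ x ∈ V, (Real.exp (-(25 * (1 - (nb V x : ℝ) / (2 * (M : ℝ) ^ 4)))) *
        fx M (rc V c x)) := by
    rw [← Finset.prod_mul_distrib]
    exact Finset.prod_le_prod (fun x _ => hA0 _) hpt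
  have h4 : ∏ x ∈ V, (kap * (2 * (M : ℝ) ^ 4) ^ 25 * T x) ≤ Lam M ^ V.card := by
    have e1 : ∏ x ∈ V, (kap * (2 * (M : ℝ) ^ 4) ^ 25 * T x) =
        (kap * (2 * (M : ℝ) ^ 4) ^ 25 * (1005 / 1000) * rho M) ^ V.card *
        (4 * (M : ℝ) ^ 4) ^ (V.filter fun x => 1 / (M : ℝ) * (2 * ((M ^ 4 : ℕ) : ℝ)) ≤ nb V x ∧
          4 * rc V c x < nb V x).card := by
      rw [← Finset.prod_const, ← Finset.prod_const, Finset.prod_filter,
        ← Finset.prod_mul_distrib]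
      refine Finset.prod_congr rfl fun x _ => ?_
      simp only [hT]
      ring
    have e2 : Lam M ^ V.card = (kap * (2 * (M : ℝ) ^ 4) ^ 25 * (1005 / 1000) * rho M) ^ V.card *
        Real.exp (Real.log (4 * (M : ℝ) ^ 4) / (M : ℝ) ^ 2 * V.card) := by
      rw [mul_comm (Real.log (4 * (M : ℝ) ^ 4) / (M : ℝ) ^ 2) (V.card : ℝ), Real.exp_nat_mul,
        ← mul_pow]
      unfold Lam kap
      ring
    rw [e1, e2]
    have hk := kap_pos
    have e3 : (4 * (M : ℝ) ^ 4) ^ (V.filter fun x => 1 / (M : ℝ) * (2 * ((M ^ 4 : ℕ) : ℝ)) ≤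
        nb V x ∧ 4 * rc V c x < nb V x).card ≤
        Real.exp (Real.log (4 * (M : ℝ) ^ 4) / (M : ℝ) ^ 2 * V.card) := by
      have e4 : (4 * (M : ℝ) ^ 4) = Real.exp (Real.log (4 * (M : ℝ) ^ 4)) :=
        (Real.exp_log (by positivity)).symm
      conv_lhs => rw [e4]
      rw [← Real.exp_nat_mul]
      apply Real.exp_le_exp.mpr
      have hl : 0 ≤ Real.log (4 * (M : ℝ) ^ 4) :=
        Real.log_nonneg (by nlinarith [one_le_pow₀ (n := 4) (show (1 : ℝ) ≤ M by linarith)])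
      have e6 : (((M ^ 4 : ℕ) : ℝ) * (1 / (M : ℝ)) ^ 2) = (M : ℝ) ^ 2 := by
        rw [Nat.cast_pow]
        field_simp
      rw [e6] at hc
      calc _ ≤ ((V.card : ℝ) / (M : ℝ) ^ 2) * Real.log (4 * (M : ℝ) ^ 4) :=
            mul_le_mul_of_nonneg_right hc hl
        _ = _ := by ring
    gcongr
  rw [Finset.prod_div_distrib, Finset.prod_const, div_le_iff₀ (by positivity)]
  refine h3.trans ?_
  rw [mul_comm]
  refine mul_le_mul_of_nonneg_left h4 (Finset.prod_nonneg fun x _ => ?_)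
  exact mul_nonneg (Real.exp_pos _).le (hfx0 _)

end Pool.Agent.Q141.CP
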